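import Pool.Agent.N922.PQ.Lat

/-!
# Part DET of project PQ (helper922): Gram matrices of the lattice `I` (helper227)
-/

set_option autoImplicit false
set_option linter.all false

open Matrix Polynomial

noncomputable section

namespace Pool.Agent.N227.PQ

open Pool.Agent.N922.PQ

variable {L : Type} [Field L] [CharZero L] {a b : ℤ} {θ : L}

theorem co_crd (h : IsCub a b θ) (r s t : ℚ) :
    h.co 0 ((r : L) + (s : L) * θ + (t : L) * θ ^ 2) = r ∧
    h.co 1 ((r : L) + (s : L) * θ + (t : L) * θ ^ 2) = s ∧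
    h.co 2 ((r : L) + (s : L) * θ + (t : L) * θ ^ 2) = t := by
  have e : (r : L) + (s : L) * θ + (t : L) * θ ^ 2 =
      r • h.basis 0 + s • h.basis 1 + t • h.basis 2 := by
    simp [h.basis_apply, Pool.Agent.N922.PQ.vec, Rat.smul_def]
  rw [e]
  simp [IsCub.co, Module.Basis.coord_apply, Module.Basis.repr_self, Finsupp.single_apply]

theorem eq_co (h : IsCub a b θ) (x : L) :
    x = (h.co 0 x : L) + (h.co 1 x : L) * θ + (h.co 2 x : L) * θ ^ 2 := by
  obtain ⟨r, s, t, e⟩ := h.gen x
  obtain ⟨h0, h1, h2⟩ := co_crd h r s t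
  rw [← e] at h0 h1 h2
  rw [h0, h1, h2, e]

theorem co_smul (h : IsCub a b θ) (i : Fin 3) (q : ℚ) (x : L) :
    h.co i ((q : L) * x) = q * h.co i x := by
  have : (q : L) * x = q • x := by rw [Rat.smul_def]
  rw [this, map_smul, smul_eq_mul]

theorem co_int_smul (h : IsCub a b θ) (i : Fin 3) (q : ℤ) (x : L) :
    h.co i ((q : L) * x) = (q : ℚ) * h.co i x := by
  have : (q : L) * x = (q : ℤ) • x := by rw [zsmul_eq_mul]
  rw [this, map_zsmul, zsmul_eq_mul]

theorem th3 (h : IsCub a b θ) : θ ^ 3 = -(a : L) * θ - (b : L) := by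
  linear_combination h.root

/-- The coordinates of `θ z`. -/
theorem co_th (h : IsCub a b θ) (z : L) :
    h.co 2 (θ * z) = h.co 1 z ∧ h.co 2 (θ ^ 2 * z) = h.co 0 z - (a : ℚ) * h.co 2 z := by
  set r := h.co 0 z with hr
  set s := h.co 1 z with hs
  set t := h.co 2 z with ht
  have e := eq_co h z
  rw [← hr, ← hs, ← ht] at e
  have e1 : θ * z = (((-(b : ℚ) * t : ℚ)) : L) + ((r - (a : ℚ) * t : ℚ) : L) * θ + (s : L) * θ ^ 2 := by
    rw [e]
    push_cast
    linear_combination (t : L) * th3 h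
  have e2 : θ ^ 2 * z = (((-(b : ℚ) * s : ℚ)) : L) + ((-(a : ℚ) * s - (b : ℚ) * t : ℚ) : L) * θ +
      ((r - (a : ℚ) * t : ℚ) : L) * θ ^ 2 := by
    rw [e]
    push_cast
    linear_combination ((s : L) + (t : L) * θ) * th3 h
  constructor
  · rw [e1]
    exact (co_crd h _ _ _).2.2
  · rw [e2]
    exact (co_crd h _ _ _).2.2

/-- The Gram matrix of `c₂(x y)` in the basis `1, θ, θ ^ 2`. -/
theorem det_S (h : IsCub a b θ) :
    (Matrix.of fun i j : Fin 3 => h.co 2 (h.basis i * h.basis j)).det = -1 := by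
  have b0 : h.basis 0 = 1 := by simp [h.basis_apply, Pool.Agent.N922.PQ.vec]
  have b1 : h.basis 1 = θ := by simp [h.basis_apply, Pool.Agent.N922.PQ.vec]
  have b2 : h.basis 2 = θ ^ 2 := by simp [h.basis_apply, Pool.Agent.N922.PQ.vec]
  have c0 : h.co 2 (1 : L) = 0 := by
    have := (co_crd h 1 0 0).2.2
    simpa using this
  have c00 : h.co 1 (1 : L) = 0 := by
    have := (co_crd h 1 0 0).2.1
    simpa using this
  have c1 : h.co 2 θ = 0 := by
    have := (co_crd h 0 1 0).2.2
    simpa using this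
  have c2 : h.co 2 (θ ^ 2) = 1 := by
    have := (co_crd h 0 0 1).2.2
    simpa using this
  have c12 : h.co 1 (θ ^ 2) = 0 := by
    have := (co_crd h 0 0 1).2.1
    simpa using this
  have c3 : h.co 2 (θ * θ ^ 2) = 0 := by
    rw [(co_th h (θ ^ 2)).1, c12]
  rw [Matrix.det_fin_three]
  simp only [Matrix.of_apply, b0, b1, b2, one_mul, mul_one]
  have c11 : h.co 2 (θ * θ) = 1 := by rw [← pow_two, c2]
  have c21 : h.co 2 (θ ^ 2 * θ) = 0 := by rw [mul_comm, c3]
  rw [c0, c1, c2, c11, c21, c3]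
  ring

theorem det_T [NumberField L] (h : IsCub a b θ) (z : L) :
    (Matrix.of fun i j : Fin 3 => h.co 2 (h.basis i * h.basis j * z)).det =
      - Algebra.norm ℚ z := by
  have e : (Matrix.of fun i j : Fin 3 => h.co 2 (h.basis i * h.basis j * z)) =
      (Matrix.of fun i j : Fin 3 => h.co 2 (h.basis i * h.basis j)) *
        Algebra.leftMulMatrix h.basis z := by
    ext i j
    rw [Matrix.mul_apply, Matrix.of_apply]
    have e1 : h.basis j * z = ∑ m, (h.basis.repr (z * h.basis j) m) • h.basis m := by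
      rw [h.basis.sum_repr, mul_comm]
    rw [mul_assoc, e1, Finset.mul_sum, map_sum]
    refine Finset.sum_congr rfl fun m _ => ?_
    rw [mul_smul_comm, map_smul, smul_eq_mul, Algebra.leftMulMatrix_eq_repr_mul, Matrix.of_apply,
      mul_comm]
  rw [e, Matrix.det_mul, det_S, ← Algebra.norm_eq_matrix_det, neg_one_mul]

theorem det (h0 : S_INT) : S_DET := by
  intro L _ _ a b θ h hsq α e hα hN hSD
  have hint := h0 L a b θ h hsq
  -- integral elements have integral coordinates
  have hco : ∀ x : L, IsIntegral ℤ x → ∀ i, ∃ c : ℤ, (c : ℚ) = h.co i x := by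
    intro x hx i
    obtain ⟨v, hv⟩ := (hint x).1 hx
    refine ⟨v i, ?_⟩
    have e1 : x = (((v 0 : ℤ) : ℚ) : L) + (((v 1 : ℤ) : ℚ) : L) * θ + (((v 2 : ℤ) : ℚ) : L) * θ ^ 2 := by
      rw [hv]; push_cast; rfl
    have := co_crd h ((v 0 : ℤ) : ℚ) ((v 1 : ℤ) : ℚ) ((v 2 : ℤ) : ℚ)
    rw [← e1] at this
    fin_cases i
    · exact this.1.symm
    · exact this.2.1.symm
    · exact this.2.2.symm
  choose G hG using fun i j => hco _ (hSD.int i j) 2
  choose B hB using fun i j => hco _ (hSD.int i j) 1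
  refine ⟨Matrix.of G, Matrix.of B, ?_, fun i j => hG i j, fun i j => hB i j⟩
  -- the determinant
  set Gq : Matrix (Fin 3) (Fin 3) ℚ := Matrix.of fun i j => h.co 2 (e i * e j / α) with hGq
  have hGqe : Gq = (Matrix.of G).map (Int.cast : ℤ → ℚ) := by
    ext i j
    rw [hGq, Matrix.of_apply, Matrix.map_apply, Matrix.of_apply, hG]
  have hdet : Gq.det = (((Matrix.of G).det : ℤ) : ℚ) := by
    rw [hGqe]
    exact (Int.cast_det (Matrix.of G)).symm
  obtain ⟨s, hs⟩ := hN
  have hNα : Algebra.norm ℚ α ≠ 0 := Algebra.norm_ne_zero_iff.2 hα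
  have hs0 : s ≠ 0 := by rintro rfl; exact hNα (by rw [hs]; ring)
  set P : Matrix (Fin 3) (Fin 3) ℚ := Matrix.of fun i k => h.basis.repr (e i) k with hP
  have hPe : ∀ i, e i = ∑ k, P i k • h.basis k := by
    intro i
    rw [← h.basis.sum_repr (e i)]
    rfl
  have hfac : Gq = P * (Matrix.of fun i j : Fin 3 => h.co 2 (h.basis i * h.basis j * α⁻¹)) * Pᵀ := by
    ext i j
    rw [Matrix.mul_apply, hGq, Matrix.of_apply, div_eq_mul_inv]
    conv_lhs => rw [hPe j, Finset.mul_sum, Finset.sum_mul, map_sum]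
    refine Finset.sum_congr rfl fun l _ => ?_
    rw [Matrix.mul_apply, Finset.sum_mul]
    conv_lhs => rw [hPe i, Finset.sum_mul, Finset.sum_mul, map_sum]
    refine Finset.sum_congr rfl fun k _ => ?_
    rw [Matrix.of_apply, Matrix.transpose_apply, smul_mul_smul_comm, smul_mul_assoc, map_smul,
      smul_eq_mul]
    ring
  have hdetq : Gq.det = - (P.det / s) ^ 2 := by
    have hinvn : Algebra.norm ℚ α⁻¹ = (s * s)⁻¹ := by
      apply eq_inv_of_mul_eq_one_left
      rw [← hs, ← map_mul, inv_mul_cancel₀ hα, map_one]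
    rw [hfac, Matrix.det_mul, Matrix.det_mul, det_T, Matrix.det_transpose, hinvn]
    field_simp
  -- `P` is invertible
  have hPdet : P.det ≠ 0 := by
    intro h0
    obtain ⟨v, hv0, hv⟩ := Matrix.exists_vecMul_eq_zero_iff.2 h0
    have : ∑ i, v i • e i = 0 := by
      have e1 : ∑ i, v i • e i = ∑ k, (v ᵥ* P) k • h.basis k := by
        calc ∑ i, v i • e i = ∑ i, ∑ k, (v i * P i k) • h.basis k := by
              refine Finset.sum_congr rfl fun i _ => ?_
              rw [hPe i, Finset.smul_sum]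
              simp_rw [smul_smul]
          _ = ∑ k, ∑ i, (v i * P i k) • h.basis k := Finset.sum_comm
          _ = ∑ k, (v ᵥ* P) k • h.basis k := by
              refine Finset.sum_congr rfl fun k _ => ?_
              rw [← Finset.sum_smul]
              rfl
      rw [e1, hv]
      simp
    apply hv0
    ext i
    exact Fintype.linearIndependent_iff.1 hSD.li v this i
  have hneg : Gq.det < 0 := by
    rw [hdetq]
    have : P.det / s ≠ 0 := div_ne_zero hPdet hs0
    have := sq_pos_of_ne_zero this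
    linarith
  have hunit : IsUnit Gq.det := hneg.ne.isUnit
  -- the inverse is integral
  have hthint : IsIntegral ℤ θ := (hint θ).2 ⟨![0, 1, 0], by simp [Crd]⟩
  have hth : ∀ (k : ℕ) (j : Fin 3), ∃ c : Fin 3 → ℤ, θ ^ k * e j = ∑ i, (c i : L) * e i := by
    intro k j
    refine hSD.dual _ fun i => ?_
    have : e i * (θ ^ k * e j) / α = θ ^ k * (e i * e j / α) := by ring
    rw [this]
    exact (hthint.pow k).mul (hSD.int i j)
  have key : ∀ y : L, (∀ j, ∃ c : ℤ, (c : ℚ) = h.co 2 (e j * y / α)) →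
      ∃ c : Fin 3 → ℤ, y = ∑ i, (c i : L) * e i := by
    intro y hy
    have h2 : ∀ (k : ℕ) (j : Fin 3), ∃ c : ℤ, (c : ℚ) = h.co 2 (θ ^ k * (e j * y / α)) := by
      intro k j
      obtain ⟨c, hc⟩ := hth k j
      choose d hd using hy
      refine ⟨∑ i, c i * d i, ?_⟩
      have e1 : θ ^ k * (e j * y / α) = ∑ i, (c i : L) * (e i * y / α) := by
        have : θ ^ k * (e j * y / α) = (θ ^ k * e j) * (y / α) := by ring
        rw [this, hc, Finset.sum_mul]
        refine Finset.sum_congr rfl fun i _ => by ring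
      rw [e1, map_sum]
      push_cast
      refine Finset.sum_congr rfl fun i _ => ?_
      rw [co_int_smul, hd]
    refine hSD.dual y fun i => ?_
    rw [hint]
    obtain ⟨c0, hc0⟩ := h2 0 i
    obtain ⟨c1, hc1⟩ := h2 1 i
    obtain ⟨c2, hc2⟩ := h2 2 i
    rw [pow_zero, one_mul] at hc0
    rw [pow_one, (co_th h _).1] at hc1
    rw [(co_th h _).2, ← hc0] at hc2
    refine ⟨![c2 + a * c0, c1, c0], ?_⟩
    have e1 := eq_co h (e i * y / α)
    rw [Crd]
    conv_lhs => rw [e1]
    rw [← hc0, ← hc1, show h.co 0 (e i * y / α) = ((c2 + a * c0 : ℤ) : ℚ) by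
      push_cast; linarith]
    simp
  have hinv : ∀ i, ∃ c : Fin 3 → ℤ, ∀ k, (c k : ℚ) = Gq⁻¹ i k := by
    intro i
    obtain ⟨c, hc⟩ := key (∑ k, Gq⁻¹ i k • e k) (by
      intro j
      refine ⟨if i = j then 1 else 0, ?_⟩
      have e1 : e j * (∑ k, Gq⁻¹ i k • e k) / α = ∑ k, Gq⁻¹ i k • (e k * e j / α) := by
        rw [Finset.mul_sum, Finset.sum_div]
        refine Finset.sum_congr rfl fun k _ => ?_
        rw [mul_smul_comm, smul_div_assoc, mul_comm (e j)]
      rw [e1, map_sum]
      have e2 : ∑ k, h.co 2 (Gq⁻¹ i k • (e k * e j / α)) = (Gq⁻¹ * Gq) i j := by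
        rw [Matrix.mul_apply]
        refine Finset.sum_congr rfl fun k _ => ?_
        rw [map_smul, smul_eq_mul, hGq, Matrix.of_apply]
      rw [e2, Matrix.nonsing_inv_mul _ hunit, Matrix.one_apply]
      split_ifs <;> simp)
    refine ⟨c, fun k => ?_⟩
    have e3 : ∑ k, ((c k : ℚ) - Gq⁻¹ i k) • e k = 0 := by
      simp_rw [sub_smul]
      rw [Finset.sum_sub_distrib, hc, sub_eq_zero]
      refine Finset.sum_congr rfl fun k _ => ?_
      rw [Rat.smul_def]
      push_cast
      rfl
    have := Fintype.linearIndependent_iff.1 hSD.li _ e3 k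
    linarith
  choose K hK using hinv
  have hdetK : Gq⁻¹.det = (((Matrix.of K).det : ℤ) : ℚ) := by
    have : Gq⁻¹ = (Matrix.of K).map (Int.cast : ℤ → ℚ) := by
      ext i k
      rw [Matrix.map_apply, Matrix.of_apply, hK]
    rw [this]
    exact (Int.cast_det (Matrix.of K)).symm
  have hprod : (Matrix.of G).det * (Matrix.of K).det = 1 := by
    have : Gq.det * Gq⁻¹.det = 1 := by
      rw [← Matrix.det_mul, Matrix.mul_nonsing_inv _ hunit, Matrix.det_one]
    rw [hdet, hdetK] at this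
    exact_mod_cast this
  have hlt : (Matrix.of G).det < 0 := by
    rw [hdet] at hneg
    exact_mod_cast hneg
  rcases Int.isUnit_iff.1 (IsUnit.of_mul_eq_one _ hprod) with h1 | h1
  · omega
  · exact h1

end Pool.Agent.N227.PQ
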